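import Pool.Agent.V11147.AvoidK

namespace Pool.Agent.Results.MP_f1618c_pr.AllWalkers

open MeasureTheory ProbabilityTheory

/-- a 1-avoidance coupling of `k` Bernoulli(`p`) walkers; the value taken by walker `j` at time `t`
is the entry number `t * k + j` of the interleaved sequence (walkers are numbered from 0) -/
def AvoidanceCoupling.{u} (k : ℕ) (p : ℝ) : Prop :=
  ∃ (Ω : Type u) (_ : MeasurableSpace Ω) (μ : Measure Ω) (_ : IsProbabilityMeasure μ)
    (X : Fin k → ℕ → Ω → Bool),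
    (∀ j t, Measurable (X j t)) ∧ (∀ j, iIndepFun (fun t => X j t) μ) ∧
    (∀ j t, μ.real {ω | X j t ω = true} = p) ∧
    ∀ᵐ ω ∂μ, ∀ (j j' : Fin k) (t t' : ℕ), t * k + (j : ℕ) < t' * k + (j' : ℕ) →
      t' * k + (j' : ℕ) < t * k + (j : ℕ) + k → ¬ (X j t ω = true ∧ X j' t' ω = true)

theorem result.{u} (k : ℕ) (hk : 2 ≤ k) (p : ℝ) (h : AvoidanceCoupling.{u} k p) :
    k * p + p * (1 - p) * (1 + (k - 1) * p) ≤ 1 ∧ (3 ≤ k → p < 1 / (k + 1)) := by
  obtain ⟨Ω, _, μ, _, X, hm, hi, hp, hav⟩ := h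
  have h1 := Pool.Agent.V11147.Avoid.general_bound (μ := μ) (by omega) hm hi hp hav
  refine ⟨h1, fun hk3 => Pool.Agent.V11147.Avoid.lt_of_bound hk3 ?_ ?_ h1⟩
  · rw [← hp ⟨0, by omega⟩ 0]
    exact measureReal_nonneg
  · rw [← hp ⟨0, by omega⟩ 0]
    exact measureReal_le_one

end Pool.Agent.Results.MP_f1618c_pr.AllWalkers
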