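import Pool.Agent.V11147.Avoid

namespace Pool.Agent.Results.MP_f1618c_pr.TwoWalkers

open MeasureTheory ProbabilityTheory

/-- a 1-avoidance coupling of `k` Bernoulli(`p`) walkers; the value taken by walker `j` at time `t`
is the entry number `t * k + j` of the interleaved sequence (walkers are numbered from 0) -/
def AvoidanceCoupling.{u} (k : ℕ) (p : ℝ) : Prop :=
  ∃ (Ω : Type u) (_ : MeasurableSpace Ω) (μ : Measure Ω) (_ : IsProbabilityMeasure μ)
    (X : Fin k → ℕ → Ω → Bool),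
    (∀ j t, Measurable (X j t)) ∧ (∀ j, iIndepFun (fun t => X j t) μ) ∧
    (∀ j t, μ.real {ω | X j t ω = true} = p) ∧
    ∀ᵐ ω ∂μ, ∀ (j j' : Fin k) (t t' : ℕ), t * k + (j : ℕ) < t' * k + (j' : ℕ) →
      t' * k + (j' : ℕ) < t * k + (j : ℕ) + k → ¬ (X j t ω = true ∧ X j' t' ω = true)

theorem result.{u} (p : ℝ) (h : AvoidanceCoupling.{u} 2 p) : p ≤ 1 / 3 := by
  obtain ⟨Ω, _, μ, _, X, hm, hi, hp, hav⟩ := h
  refine Pool.Agent.V11147.Avoid.pair_bound (X := X 0) (Y := X 1) (μ := μ) (hm 0) (hm 1)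
    (hi 0) (hi 1) (hp 0) (hp 1) ?_
  filter_upwards [hav] with ω hω t
  refine ⟨?_, ?_⟩
  · exact hω 0 1 t t (by simp) (by simp)
  · refine hω 1 0 t (t + 1) ?_ ?_
    · simp only [Fin.val_zero, Fin.val_one]
      omega
    · simp only [Fin.val_zero, Fin.val_one]
      omega

end Pool.Agent.Results.MP_f1618c_pr.TwoWalkers
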